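import Pool.Agent.Run7.h520.BU.I

/-!
# Project BU (helper520), piece EQ (helper651)
-/

set_option autoImplicit false

namespace Run7.h651.BU.EQ
open FirstOrder FirstOrder.Language
open Run7.h520.BU

/-- the tuple of the names and of `s` -/
def tup {N : Type} (X : Fr N) (C : Finset Pt0) {k : ℕ} (s : Fin k → N) : C ⊕ Fin k → N :=
  Sum.elim (fun c => X.nm c.1) s

theorem F_succ {N : Type} (X : Fr N) (H i : ℕ) (x y : N) :
    X.F H (i + 1) x y = (if i + 1 < H then X.E i x y else x = y) := rfl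

theorem Pos.symm {N N' : Type} {X : Fr N} {X' : Fr N'} {n H : ℕ} {α : Type} {s : α → N} {s' : α → N'}
    (h : Pos X X' n H s s') : Pos X' X n H s' s :=
  ⟨fun i a b => (h.rel i a b).symm, fun j hj a => (h.ty j hj a).symm⟩

/-- extension of a position -/
theorem ext (hB : S_BAS) {N N' : Type} {X : Fr N} {X' : Fr N'} (hX : X.Ok) (hX' : X'.Ok) {n H : ℕ} (hH : 1 ≤ H)
    {C : Finset Pt0} {k : ℕ} {s : Fin k → N} {s' : Fin k → N'} (h : Pos X X' n H (tup X C s) (tup X' C s'))
    {x : N} {x' : N'} (h1 : ∀ i a, X.F H i x (tup X C s a) ↔ X'.F H i x' (tup X' C s' a))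
    (h2 : ∀ j ≤ H, X.ty n H j x = X'.ty n H j x') :
    Pos X X' n H (tup X C (Fin.snoc (α := fun _ => N) s x)) (tup X' C (Fin.snoc (α := fun _ => N') s' x')) := by
  obtain ⟨e1, -, -, -⟩ := hB.2 N X hX H hH
  obtain ⟨e1', -, -, -⟩ := hB.2 N' X' hX' H hH
  -- the points of the new tuple
  have hcases : ∀ a : C ⊕ Fin (k + 1), (∃ b : C ⊕ Fin k,
      tup X C (Fin.snoc (α := fun _ => N) s x) a = tup X C s b ∧
      tup X' C (Fin.snoc (α := fun _ => N') s' x') a = tup X' C s' b) ∨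
      (tup X C (Fin.snoc (α := fun _ => N) s x) a = x ∧
      tup X' C (Fin.snoc (α := fun _ => N') s' x') a = x') := by
    rintro (c | i)
    · left
      exact ⟨Sum.inl c, rfl, rfl⟩
    · refine Fin.lastCases ?_ (fun i => ?_) i
      · right
        constructor
        · show Fin.snoc (α := fun _ => N) s x (Fin.last k) = x
          rw [Fin.snoc_last]
        · show Fin.snoc (α := fun _ => N') s' x' (Fin.last k) = x'
          rw [Fin.snoc_last]
      · left
        refine ⟨Sum.inr i, ?_, ?_⟩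
        · show Fin.snoc (α := fun _ => N) s x i.castSucc = s i
          rw [Fin.snoc_castSucc]
        · show Fin.snoc (α := fun _ => N') s' x' i.castSucc = s' i
          rw [Fin.snoc_castSucc]
  constructor
  · intro i a b
    rcases hcases a with ⟨a', ha, ha'⟩ | ⟨ha, ha'⟩ <;> rcases hcases b with ⟨b', hb, hb'⟩ | ⟨hb, hb'⟩ <;>
      rw [ha, ha', hb, hb']
    · exact h.rel i a' b'
    · exact ⟨fun g => (e1' i).symm ((h1 i a').1 ((e1 i).symm g)), fun g => (e1 i).symm ((h1 i a').2 ((e1' i).symm g))⟩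
    · exact h1 i b'
    · exact ⟨fun _ => (e1' i).refl _, fun _ => (e1 i).refl _⟩
  · intro j hj a
    rcases hcases a with ⟨a', ha, ha'⟩ | ⟨ha, ha'⟩ <;> rw [ha, ha']
    · exact h.ty j hj a'
    · exact h2 j hj

/-- the terms are variables -/
theorem term_var {k : ℕ} (t : LB.Term (Empty ⊕ Fin k)) : ∃ i : Fin k, t = Term.var (Sum.inr i) := by
  cases t with
  | var x =>
    rcases x with e | i
    · exact e.elim
    · exact ⟨i, rfl⟩
  | func f _ => exact (f : Empty).elim

/-- the main induction -/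
theorem main (hB : S_BAS) (hL : S_LIFT) (hT : S_TOP) (hF : S_FMP) (hS : S_STEP) {N N' : Type} (X : Fr N)
    (X' : Fr N') (hX : X.Ok) (hX' : X'.Ok) {k : ℕ} (φ : LB.BoundedFormula Empty k) :
    ∃ (q H₀ : ℕ) (C₀ : Finset Pt0), ∀ H : ℕ, H₀ ≤ H → 1 ≤ H → ∀ C : Finset Pt0, C₀ ⊆ C → ∀ n : ℕ,
      C.card + k + q ≤ n → ∀ (s : Fin k → N) (s' : Fin k → N'), Pos X X' n H (tup X C s) (tup X' C s') →
      (@BoundedFormula.Realize LB N X.str Empty k φ default s ↔
        @BoundedFormula.Realize LB N' X'.str Empty k φ default s') := by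
  classical
  let _ := X.str
  let _ := X'.str
  have heq : ∀ {n H : ℕ} {α : Type} {s : α → N} {s' : α → N'}, 1 ≤ H → Pos X X' n H s s' → ∀ a b,
      s a = s b ↔ s' a = s' b := by
    intro n H α s s' hH h a b
    rw [← (hB.2 N X hX H hH).2.2.1, ← (hB.2 N' X' hX' H hH).2.2.1]
    exact h.rel H a b
  induction φ with
  | falsum => exact ⟨0, 0, ∅, fun _ _ _ _ _ _ _ _ _ _ => Iff.rfl⟩
  | equal t₁ t₂ =>
    obtain ⟨i, rfl⟩ := term_var t₁
    obtain ⟨j, rfl⟩ := term_var t₂
    refine ⟨0, 0, ∅, fun H _ hH C _ n _ s s' h => ?_⟩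
    exact heq hH h (Sum.inr i) (Sum.inr j)
  | rel R ts =>
    cases R with
    | U c =>
      obtain ⟨i, hi⟩ := term_var (ts 0)
      refine ⟨0, 0, {c}, fun H _ hH C hC n _ s s' h => ?_⟩
      have hc : c ∈ C := hC (Finset.mem_singleton_self c)
      have h1 := heq hH h (Sum.inr i) (Sum.inl ⟨c, hc⟩)
      show (ts 0).realize _ = X.nm c ↔ (ts 0).realize _ = X'.nm c
      rw [hi]
      exact h1
    | Q =>
      obtain ⟨i, hi⟩ := term_var (ts 0)
      refine ⟨0, 0, ∅, fun H _ hH C _ n _ s s' h => ?_⟩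
      have h1 := h.ty 0 (Nat.zero_le _) (Sum.inr i)
      show X.Q ((ts 0).realize _) ↔ X'.Q ((ts 0).realize _)
      rw [hi]
      exact iff_of_eq h1
    | E m =>
      obtain ⟨i, hi⟩ := term_var (ts 0)
      obtain ⟨j, hj⟩ := term_var (ts 1)
      refine ⟨0, m + 2, ∅, fun H hH₀ hH C _ n _ s s' h => ?_⟩
      have h1 := h.rel (m + 1) (Sum.inr i) (Sum.inr j)
      have hlt : m + 1 < H := by omega
      rw [F_succ, F_succ, if_pos hlt, if_pos hlt] at h1
      show X.E m ((ts 0).realize _) ((ts 1).realize _) ↔ X'.E m ((ts 0).realize _) ((ts 1).realize _)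
      rw [hi, hj]
      exact h1
  | imp f₁ f₂ ih₁ ih₂ =>
    obtain ⟨q₁, H₁, C₁, h₁⟩ := ih₁
    obtain ⟨q₂, H₂, C₂, h₂⟩ := ih₂
    refine ⟨q₁ + q₂, H₁ + H₂, C₁ ∪ C₂, fun H hH₀ hH C hC n hn s s' h => ?_⟩
    have g₁ := h₁ H (by omega) hH C (Finset.union_subset_left hC) n (by omega) s s' h
    have g₂ := h₂ H (by omega) hH C (Finset.union_subset_right hC) n (by omega) s s' h
    rw [BoundedFormula.realize_imp, BoundedFormula.realize_imp, g₁, g₂]
  | @all k f ih =>
    obtain ⟨q, H₀, C₀, h₀⟩ := ih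
    refine ⟨q + 1, H₀, C₀, fun H hH₀ hH C hC n hn s s' h => ?_⟩
    have hcard : Nat.card (C ⊕ Fin k) < n := by
      rw [Nat.card_sum, Nat.card_eq_fintype_card, Nat.card_eq_fintype_card, Fintype.card_coe, Fintype.card_fin]
      omega
    have htop := hT hB hL hF N N' X X' hX hX' n H hH
    rw [BoundedFormula.realize_all, BoundedFormula.realize_all]
    constructor
    · intro hall x'
      obtain ⟨x, hx1, hx2⟩ := hS N' N X' X hX' hX n H hH (fun a b => (htop b a).symm) (C ⊕ Fin k) _ _ hcard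
        (Pos.symm h) x'
      have hp := ext hB hX hX' hH h (x := x) (x' := x') (fun i a => (hx1 i a).symm) (fun j hj => (hx2 j hj).symm)
      exact (h₀ H hH₀ hH C hC n (by omega) _ _ hp).1 (hall x)
    · intro hall x
      obtain ⟨x', hx1, hx2⟩ := hS N N' X X' hX hX' n H hH htop (C ⊕ Fin k) _ _ hcard h x
      have hp := ext hB hX hX' hH h (x := x) (x' := x') hx1 hx2
      exact (h₀ H hH₀ hH C hC n (by omega) _ _ hp).2 (hall x')

/-- the starting position -/
theorem start (hB : S_BAS) (hL : S_LIFT) (hT : S_TOP) (hF : S_FMP) {N N' : Type} (X : Fr N)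
    (X' : Fr N') (hX : X.Ok) (hX' : X'.Ok) (n H : ℕ) (hH : 1 ≤ H) (C : Finset Pt0) (s : Fin 0 → N) (s' : Fin 0 → N') :
    Pos X X' n H (tup X C s) (tup X' C s') := by
  constructor
  · rintro i (c | a) (d | b)
    · show X.F H i (X.nm c) (X.nm d) ↔ X'.F H i (X'.nm c) (X'.nm d)
      rcases i with _ | i
      · exact Iff.rfl
      · rw [F_succ, F_succ]
        split_ifs
        · rw [hX.hE, hX'.hE]
        · rw [hX.inj.eq_iff, hX'.inj.eq_iff]
    · exact b.elim0
    · exact a.elim0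
    · exact a.elim0
  · rintro j hj (c | a)
    · show X.ty n H j (X.nm c) = X'.ty n H j (X'.nm c)
      rcases lt_or_eq_of_le hj with h | h
      · rw [hL N X hX n H j h, hL N' X' hX' n H j h]
      · subst h
        exact hT hB hL hF N N' X X' hX hX' n j hH _ _
    · exact a.elim0

/-- EQ -/
theorem eq : S_EQ := by
  intro hB hL hT hF hS N N' X X' hX hX' φ
  obtain ⟨q, H₀, C₀, h₀⟩ := main hB hL hT hF hS X X' hX hX' (k := 0) φ
  exact h₀ (H₀ + 1) (by omega) (by omega) C₀ (Finset.Subset.refl _) _ le_rfl default default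
    (start hB hL hT hF X X' hX hX' _ _ (by omega) _ _ _)

end Run7.h651.BU.EQ
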