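import Pool.Agent.Run7.h520.BU.I

/-!
# Project BU (helper520), piece TOP (helper651)
-/

set_option autoImplicit false

namespace Run7.h651.BU.TOP
open FirstOrder FirstOrder.Language
open Run7.h520.BU

/-- the type as a set -/
def tyS {N : Type} (X : Fr N) (n j : ℕ) (x : N) : Set (Ty n j × Fin (n + 1)) := X.ty n (j + 1) (j + 1) x

theorem F_succ {N : Type} (X : Fr N) (H i : ℕ) (x y : N) :
    X.F H (i + 1) x y = (if i + 1 < H then X.E i x y else x = y) := rfl

theorem top_aux (hL : S_LIFT) (hF : S_FMP) (N N' : Type) (X : Fr N) (X' : Fr N') (hX : X.Ok) (hX' : X'.Ok)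
    (n j : ℕ) (x : N) (x' : N') :
    tyS X n j x ⊆ tyS X' n j x' := by
  intro p hp
  obtain ⟨y, -, -, hy3⟩ := hp
  by_cases hk : (p.2 : ℕ) = 0
  · refine ⟨fun a => absurd a.2 (by omega), fun a => absurd a.2 (by omega), fun a => absurd a.2 (by omega),
      fun a => absurd a.2 (by omega)⟩
  · obtain ⟨δ, hδ⟩ := hF N X hX n (j + 1) (by omega) (y ⟨0, Nat.pos_of_ne_zero hk⟩)
    choose c hc1 hc2 using hδ
    rw [Nat.add_sub_cancel, hy3] at hc2
    refine ⟨fun a => X'.nm (c a), fun a => ?_, fun a b hab => ?_, fun a => ?_⟩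
    · rw [Nat.sub_self]
      exact trivial
    · have h1 : j + 1 - j = 0 + 1 := by omega
      rw [h1]
      intro hF1
      have h2 : c a = c b ∨ E0 0 (c a) (c b) := by
        rw [F_succ] at hF1
        split_ifs at hF1 with h3
        · right
          exact (hX'.hE 0 _ _).1 hF1
        · left
          exact hX'.inj hF1
      have h3 : (c a).1.1 = (c b).1.1 := by
        rcases h2 with h2 | h2
        · rw [h2]
        · exact h2.1
      rw [hc1, hc1] at h3
      have h4 : (a : ℕ) = b := congrArg Prod.fst h3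
      exact hab (Fin.ext h4)
    · show X'.ty n (j + 1) j (X'.nm (c a)) = p.1
      rw [hL N' X' hX' n (j + 1) j (by omega) (c a)]
      exact hc2 a

/-- TOP -/
theorem top : S_TOP := by
  intro _ hL hF N N' X X' hX hX' n H hH x x'
  obtain ⟨j, rfl⟩ : ∃ j, H = j + 1 := ⟨H - 1, by omega⟩
  exact Set.Subset.antisymm (top_aux hL hF N N' X X' hX hX' n j x x') (top_aux hL hF N' N X' X hX' hX n j x' x)

end Run7.h651.BU.TOP
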